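import Pool.Agent.Strip051.LB.A0m0p_pm.Defs

/-! # LINE boxes A0m0p_pm: part 1 -/

namespace Pool.Agent.Strip051.LB.A0m0p_pm

open Pool.Agent.Strip051.Box Pool.Agent.Strip051.Box2

set_option maxRecDepth 100000

theorem c0 : chk f 60 (L2 (L1 (L1 (L1 b0)))) = true := by decide +kernel

theorem c1 : chk f 60 (L2 (L1 (R2 (L1 (L1 (L1 b0)))))) = true := by decide +kernel

theorem c2 : chk f 60 (L1 (R2 (L1 (R2 (L1 (L1 (L1 b0))))))) = true := by decide +kernel

theorem c3 : chk f 60 (R1 (R2 (L1 (R2 (L1 (L1 (L1 b0))))))) = true := by decide +kernel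

theorem c4 : chk f 60 (R1 (R2 (L1 (L1 (L1 b0))))) = true := by decide +kernel

theorem c5 : chk f 60 (R1 (L1 (L1 b0))) = true := by decide +kernel

end Pool.Agent.Strip051.LB.A0m0p_pm
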